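import Pool.Agent.E8helper39.WW.Stm

/-!
# Project WW, piece EXZ (MP_a50277_co)
-/

set_option autoImplicit false

open Module Submodule WW39

namespace Pool.Agent.E8helper54.WW.Exz

section
variable {V : Type} [AddCommGroup V] [Module ℝ V]

lemma cut_neg {Q : Set V} {f : Dual ℝ V} (h : Cut Q f) : Cut Q (-f) := by
  obtain ⟨⟨e, he, h1⟩, h2⟩ := h
  refine ⟨⟨e, he, by simpa using h1⟩, fun x hx h0 => ?_⟩
  have h3 : Q ∩ {e | (-f) e = 0} = Q ∩ {e | f e = 0} := by
    ext y; simp
  rw [h3]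
  exact h2 x hx (by simpa using h0)

lemma incl_mul {Q : Set V} {q x : V} (hg : Gen Q q) (h : InCl Q q x) {f : Dual ℝ V}
    (hf : Cut Q f) : 0 ≤ f x * f q := by
  rcases lt_or_gt_of_ne (hg f hf) with h1 | h1
  · have h2 := h (-f) (cut_neg hf) (by simpa using h1)
    have h3 : f x ≤ 0 := by simpa using h2
    exact mul_nonneg_of_nonpos_of_nonpos h3 h1.le
  · exact mul_nonneg (h f hf h1) h1.le

lemma dual_of_not_mem {W : Submodule ℝ V} {b : V} (hb : b ∉ W) :
    ∃ F : Dual ℝ V, F b = 1 ∧ ∀ x ∈ W, F x = 0 := by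
  obtain ⟨f, h1, h2⟩ := Submodule.exists_le_ker_of_notMem hb
  refine ⟨(f b)⁻¹ • f, by simp [h1], fun x hx => ?_⟩
  have : f x = 0 := h2 hx
  simp [this]

end

theorem t_EXZ : S_EXZ := by
  intro V _ _ Q q hQ hconn hq hgen hrk
  by_contra hcon
  push Not at hcon
  -- signs
  have hs : ∀ z ∈ Q, ∃ s : ℝ, s * s = 1 ∧ ∀ f, Cut Q f → 0 ≤ s * f z * f q := by
    intro z hz
    by_cases h1 : InCl Q q z
    · exact ⟨1, by norm_num, fun f hf => by simpa using incl_mul hgen h1 hf⟩
    · refine ⟨-1, by norm_num, fun f hf => ?_⟩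
      have := incl_mul hgen (hcon z hz h1) hf
      simpa using this
  obtain ⟨B, hBQ, hspan, hli⟩ := exists_linearIndependent ℝ Q
  -- dual functionals
  have hF : ∀ b ∈ B, ∃ F : Dual ℝ V, F b = 1 ∧ ∀ x ∈ span ℝ (B \ {b}), F x = 0 := by
    intro b hb
    apply dual_of_not_mem
    have h1 := hli.notMem_span_image (s := {y : B | y.1 ≠ b}) (x := ⟨b, hb⟩) (by simp)
    have h2 : ((↑) : B → V) '' {y : B | y.1 ≠ b} = B \ {b} := by
      ext y
      constructor
      · rintro ⟨z, hz, rfl⟩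
        exact ⟨z.2, hz⟩
      · rintro ⟨h3, h4⟩
        exact ⟨⟨y, h3⟩, h4, rfl⟩
    rwa [h2] at h1
  choose! F hF1 hF0 using hF
  have hFb : ∀ b ∈ B, ∀ b' ∈ B, b' ≠ b → F b b' = 0 := fun b hb b' hb' hne =>
    hF0 b hb b' (subset_span ⟨hb', hne⟩)
  -- removing one coordinate
  have hrem : ∀ b ∈ B, ∀ x ∈ span ℝ B, F b x = 0 → x ∈ span ℝ (B \ {b}) := by
    intro b hb x hx h0
    have h1 : B = insert b (B \ {b}) := by
      rw [Set.insert_sdiff_singleton, Set.insert_eq_of_mem hb]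
    rw [h1, mem_span_insert] at hx
    obtain ⟨a, y, hy, rfl⟩ := hx
    have h2 : F b (a • b + y) = a := by
      rw [map_add, map_smul, hF1 b hb, hF0 b hb y hy]; simp
    rw [h0] at h2
    rw [← h2, zero_smul, zero_add]
    exact hy
  have hrem2 : ∀ b ∈ B, ∀ b' ∈ B, b' ≠ b → ∀ x ∈ span ℝ B, F b x = 0 → F b' x = 0 →
      x ∈ span ℝ ((B \ {b}) \ {b'}) := by
    intro b hb b' hb' hne x hx h0 h0'
    have hx1 := hrem b hb x hx h0
    have h1 : B \ {b} = insert b' ((B \ {b}) \ {b'}) := by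
      rw [Set.insert_sdiff_singleton, Set.insert_eq_of_mem (show b' ∈ B \ {b} from ⟨hb', hne⟩)]
    rw [h1, mem_span_insert] at hx1
    obtain ⟨a, y, hy, rfl⟩ := hx1
    have hy' : y ∈ span ℝ (B \ {b'}) :=
      span_mono (show (B \ {b}) \ {b'} ⊆ B \ {b'} from fun z hz => ⟨hz.1.1, hz.2⟩) hy
    have h2 : F b' (a • b' + y) = a := by
      rw [map_add, map_smul, hF1 b' hb', hF0 b' hb' y hy']; simp
    rw [h0'] at h2
    rw [← h2, zero_smul, zero_add]
    exact hy
  have hcutF : ∀ b ∈ B, Cut Q (F b) := by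
    intro b hb
    refine ⟨⟨b, hBQ hb, by rw [hF1 b hb]; norm_num⟩, fun x hx h0 => ?_⟩
    rw [← hspan] at hx
    refine span_mono ?_ (hrem b hb x hx h0)
    intro y hy
    exact ⟨hBQ hy.1, hFb b hb y hy.1 hy.2⟩
  -- at most one coordinate
  have hone : ∀ z ∈ Q, ∀ b₁ ∈ B, ∀ b₂ ∈ B, b₂ ≠ b₁ → F b₁ z = 0 ∨ F b₂ z = 0 := by
    intro z hz b₁ hb₁ b₂ hb₂ hne
    by_contra h
    push Not at h
    obtain ⟨hc1, hc2⟩ := h
    have hzB : z ∈ span ℝ B := by rw [hspan]; exact subset_span hz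
    set c₁ := F b₁ z with hc₁
    set c₂ := F b₂ z with hc₂
    set G : Dual ℝ V := c₂ • F b₁ - c₁ • F b₂ with hG
    have hGb1 : G b₁ = c₂ := by
      simp [hG, hF1 b₁ hb₁, hFb b₂ hb₂ b₁ hb₁ hne.symm]
    have hGb2 : G b₂ = -c₁ := by
      simp [hG, hF1 b₂ hb₂, hFb b₁ hb₁ b₂ hb₂ hne]
    have hGz : G z = 0 := by
      simp only [hG, LinearMap.sub_apply, LinearMap.smul_apply, smul_eq_mul, ← hc₁, ← hc₂]; ring
    have hGcut : Cut Q G := by
      refine ⟨⟨b₁, hBQ hb₁, by rw [hGb1]; exact hc2⟩, fun x hx h0 => ?_⟩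
      rw [← hspan] at hx
      have hx0 : c₂ * F b₁ x - c₁ * F b₂ x = 0 := by
        simpa [hG] using h0
      have hy : x - (F b₁ x / c₁) • z ∈ span ℝ ((B \ {b₁}) \ {b₂}) := by
        refine hrem2 b₁ hb₁ b₂ hb₂ hne _ (sub_mem hx (smul_mem _ _ hzB)) ?_ ?_
        · rw [map_sub, map_smul, smul_eq_mul, ← hc₁]; field_simp; ring
        · rw [map_sub, map_smul, smul_eq_mul, ← hc₂]
          have : F b₂ x = c₂ * F b₁ x / c₁ := by
            field_simp; linarith
          rw [this]; ring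
      have hy' : x - (F b₁ x / c₁) • z ∈ span ℝ (Q ∩ {e | G e = 0}) := by
        refine span_mono ?_ hy
        intro y hy
        refine ⟨hBQ hy.1.1, ?_⟩
        show G y = 0
        simp [hG, hFb b₁ hb₁ y hy.1.1 hy.1.2, hFb b₂ hb₂ y hy.1.1 hy.2]
      have hz' : z ∈ span ℝ (Q ∩ {e | G e = 0}) := subset_span ⟨hz, hGz⟩
      have := add_mem hy' (smul_mem _ (F b₁ x / c₁) hz')
      simpa using this
    obtain ⟨s, hs1, hs2⟩ := hs z hz
    obtain ⟨s₁, h11, h12⟩ := hs b₁ (hBQ hb₁)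
    obtain ⟨s₂, h21, h22⟩ := hs b₂ (hBQ hb₂)
    have e1 := h12 _ (hcutF b₁ hb₁)
    have e2 := h22 _ (hcutF b₂ hb₂)
    have e3 := hs2 _ (hcutF b₁ hb₁)
    have e4 := hs2 _ (hcutF b₂ hb₂)
    have e5 := h12 _ hGcut
    have e6 := h22 _ hGcut
    rw [hF1 b₁ hb₁] at e1
    rw [hF1 b₂ hb₂] at e2
    rw [hGb1] at e5
    rw [hGb2] at e6
    rw [← hc₁] at e3
    rw [← hc₂] at e4
    have n1 := hgen _ (hcutF b₁ hb₁)
    have n2 := hgen _ (hcutF b₂ hb₂)
    have n3 := hgen _ hGcut
    -- products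
    have p1 : 0 ≤ s * s₁ * c₁ := by
      have : 0 ≤ (s₁ * 1 * F b₁ q) * (s * c₁ * F b₁ q) := mul_nonneg e1 e3
      have h2 : 0 < F b₁ q * F b₁ q := mul_self_pos.2 n1
      by_contra hneg
      push Not at hneg
      nlinarith
    have p2 : 0 ≤ s * s₂ * c₂ := by
      have : 0 ≤ (s₂ * 1 * F b₂ q) * (s * c₂ * F b₂ q) := mul_nonneg e2 e4
      have h2 : 0 < F b₂ q * F b₂ q := mul_self_pos.2 n2
      by_contra hneg
      push Not at hneg
      nlinarith
    have p3 : 0 ≤ s₁ * c₂ * (s₂ * (-c₁)) := by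
      have : 0 ≤ (s₁ * c₂ * G q) * (s₂ * (-c₁) * G q) := mul_nonneg e5 e6
      have h2 : 0 < G q * G q := mul_self_pos.2 n3
      by_contra hneg
      push Not at hneg
      nlinarith
    have p4 : 0 ≤ (s * s₁ * c₁) * (s * s₂ * c₂) := mul_nonneg p1 p2
    have p5 : (s * s₁ * c₁) * (s * s₂ * c₂) = s₁ * s₂ * (c₁ * c₂) := by
      have : (s * s₁ * c₁) * (s * s₂ * c₂) = (s * s) * (s₁ * s₂ * (c₁ * c₂)) := by ring
      rw [this, hs1, one_mul]
    have p6 : s₁ * s₂ * (c₁ * c₂) = 0 := by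
      apply le_antisymm
      · have : s₁ * c₂ * (s₂ * (-c₁)) = -(s₁ * s₂ * (c₁ * c₂)) := by ring
        linarith
      · rw [← p5]; exact p4
    have hs1' : s₁ ≠ 0 := by rintro rfl; norm_num at h11
    have hs2' : s₂ ≠ 0 := by rintro rfl; norm_num at h21
    exact (mul_ne_zero (mul_ne_zero hs1' hs2') (mul_ne_zero hc1 hc2)) p6
  -- two elements of `B`
  have hBne : B.Nonempty := by
    by_contra h
    rw [Set.not_nonempty_iff_eq_empty] at h
    rw [← hspan, h, span_empty] at hrk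
    simp at hrk
  obtain ⟨b₁, hb₁⟩ := hBne
  obtain ⟨b₂, hb₂, hne⟩ : ∃ b₂ ∈ B, b₂ ≠ b₁ := by
    by_contra h
    push Not at h
    have h1 : B ⊆ {b₁} := fun y hy => h y hy
    have h2 : span ℝ B ≤ span ℝ {b₁} := span_mono h1
    have h3 : finrank ℝ (span ℝ ({b₁} : Set V)) ≤ 1 := by
      have := finrank_span_le_card (R := ℝ) ({b₁} : Set V)
      simpa using this
    have h4 : finrank ℝ (span ℝ B) ≤ finrank ℝ (span ℝ ({b₁} : Set V)) :=
      Submodule.finrank_mono h2
    rw [hspan] at h4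
    omega
  set A : Set V := {z | z ∈ Q ∧ z ∈ span ℝ {b₁}} with hA
  have hAQ : A ⊆ Q := fun z hz => hz.1
  have hdisj : Disjoint (span ℝ A) (span ℝ (Q \ A)) := by
    rw [Submodule.disjoint_def]
    intro x hx1 hx2
    have h1 : span ℝ A ≤ span ℝ {b₁} := span_le.2 fun z hz => hz.2
    have h2 : span ℝ (Q \ A) ≤ LinearMap.ker (F b₁) := by
      refine span_le.2 fun z hz => ?_
      show F b₁ z = 0
      by_contra h0
      apply hz.2
      refine ⟨hz.1, ?_⟩
      -- all other coordinates vanish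
      have hzB : z ∈ span ℝ B := by rw [hspan]; exact subset_span hz.1
      have h3 : z - F b₁ z • b₁ ∈ span ℝ (B \ {b₁}) := by
        refine hrem b₁ hb₁ _ (sub_mem hzB (smul_mem _ _ (subset_span hb₁))) ?_
        simp [hF1 b₁ hb₁]
      -- this element has all coordinates zero
      have h4 : z - F b₁ z • b₁ = 0 := by
        by_contra h5
        -- a nonzero element of the span has a nonzero coordinate
        have h6 : ∀ S : Set V, S.Finite → S ⊆ B → ∀ x ∈ span ℝ S, (∀ b ∈ S, F b x = 0) → x = 0 := by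
          intro S hS
          induction S, hS using Set.Finite.induction_on with
          | empty =>
            intro _ x hx _
            simpa using hx
          | @insert a S haS hfin ih =>
            intro hSB x hx hx0
            rw [mem_span_insert] at hx
            obtain ⟨t, y, hy, rfl⟩ := hx
            have haB : a ∈ B := hSB (Set.mem_insert _ _)
            have hyS : y ∈ span ℝ (B \ {a}) := by
              refine span_mono ?_ hy
              intro w hw
              refine ⟨hSB (Set.mem_insert_of_mem _ hw), ?_⟩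
              rintro rfl
              exact haS hw
            have ht : F a (t • a + y) = t := by
              rw [map_add, map_smul, hF1 a haB, hF0 a haB y hyS]; simp
            rw [hx0 a (Set.mem_insert _ _)] at ht
            rw [← ht, zero_smul, zero_add]
            refine ih (fun w hw => hSB (Set.mem_insert_of_mem _ hw)) y hy ?_
            intro b hb
            have := hx0 b (Set.mem_insert_of_mem _ hb)
            rw [← ht, zero_smul, zero_add] at this
            exact this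
        apply h5
        refine h6 (B \ {b₁}) ((hQ.subset hBQ).subset Set.sdiff_subset) Set.sdiff_subset _ h3 ?_
        intro b hb
        have h7 : F b z = 0 := by
          rcases hone z hz.1 b₁ hb₁ b hb.1 hb.2 with h | h
          · exact absurd h h0
          · exact h
        rw [map_sub, map_smul, h7, hFb b hb.1 b₁ hb₁ (fun h => hb.2 h.symm)]
        simp
      rw [sub_eq_zero.1 h4]
      exact smul_mem _ _ (mem_span_singleton_self _)
    obtain ⟨c, rfl⟩ := mem_span_singleton.1 (h1 hx1)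
    have h3 : F b₁ (c • b₁) = 0 := h2 hx2
    rw [map_smul, hF1 b₁ hb₁, smul_eq_mul, mul_one] at h3
    rw [h3, zero_smul]
  rcases hconn A hAQ hdisj with h | h
  · have : b₁ ∈ A := ⟨hBQ hb₁, mem_span_singleton_self _⟩
    rw [h] at this
    exact this
  · have h1 : b₂ ∈ A := by rw [h]; exact hBQ hb₂
    obtain ⟨c, hc⟩ := mem_span_singleton.1 h1.2
    have h2 : F b₂ (c • b₁) = 1 := by rw [hc]; exact hF1 b₂ hb₂
    rw [map_smul, hFb b₂ hb₂ b₁ hb₁ hne.symm] at h2
    simp at h2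

end Pool.Agent.E8helper54.WW.Exz
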